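import Pool.Agent.Helper3.AK.Defs
import Pool.Agent.Helper60.FS.Land

/-!
# Lazy words and their reduced words (MP_75608d_al, project FS)

`W = Fin J → Bool × (ι × Bool)` are the lazy words of length `J` (first coordinate `false`: the
step is lazy), `rdw J w` is the reduced word (pushed at the head).
-/

set_option autoImplicit false
set_option linter.unusedSectionVars false

namespace Pool.Agent.Helper77.FS

open Finset Equiv
open Pool.Agent.Helper3.AK (Alt lazyLaw)

variable {ι : Type} [DecidableEq ι]

/-- push a letter at the head, with cancellation -/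
def push (l : ι × Bool) (v : List (ι × Bool)) : List (ι × Bool) :=
  if v.head? = some (l.1, !l.2) then v.tail else l :: v

/-- the reduced word of a lazy word -/
def rdw : (J : ℕ) → (Fin J → Bool × (ι × Bool)) → List (ι × Bool)
  | 0, _ => []
  | J + 1, w => if (w (Fin.last J)).1 then push (w (Fin.last J)).2 (rdw J (Fin.init w))
      else rdw J (Fin.init w)

/-- the permutation of a letter -/
def lt {α : Type} (z : ι → Perm α) (l : ι × Bool) : Perm α := if l.2 then z l.1 else (z l.1)⁻¹

/-- the permutation of a word, the head is applied first -/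
def prm {α : Type} (z : ι → Perm α) : List (ι × Bool) → Perm α
  | [] => 1
  | l :: v => prm z v * lt z l

theorem rdw_succ (J : ℕ) (w : Fin (J + 1) → Bool × (ι × Bool)) : rdw (J + 1) w =
    if (w (Fin.last J)).1 then push (w (Fin.last J)).2 (rdw J (Fin.init w))
      else rdw J (Fin.init w) := rfl

/-! ### Reduced words -/

theorem push_reduced (l : ι × Bool) {v : List (ι × Bool)} (hv : FreeGroup.IsReduced v) :
    FreeGroup.IsReduced (push l v) := by
  unfold push
  split_ifs with h
  · cases v with
    | nil => exact hv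
    | cons a v => exact hv.tail
  · cases v with
    | nil => exact FreeGroup.IsReduced.singleton
    | cons a v =>
      rw [FreeGroup.isReduced_cons_cons]
      refine ⟨fun h1 => ?_, hv⟩
      by_contra h2
      apply h
      rw [List.head?_cons, Option.some.injEq]
      obtain ⟨i, s⟩ := l
      obtain ⟨j, t⟩ := a
      simp only at h1 h2
      subst h1
      cases s <;> cases t <;> simp_all

theorem push_length_le (l : ι × Bool) (v : List (ι × Bool)) :
    (push l v).length ≤ v.length + 1 := by
  unfold push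
  split_ifs
  · rw [List.length_tail]
    omega
  · exact le_rfl

/-- RED: the word is reduced. -/
theorem rdw_reduced : ∀ (J : ℕ) (w : Fin J → Bool × (ι × Bool)), FreeGroup.IsReduced (rdw J w)
  | 0, _ => FreeGroup.IsReduced.nil
  | J + 1, w => by
    rw [rdw_succ]
    split_ifs
    · exact push_reduced _ (rdw_reduced J _)
    · exact rdw_reduced J _

/-- RED: its length is at most `J`. -/
theorem rdw_length_le : ∀ (J : ℕ) (w : Fin J → Bool × (ι × Bool)), (rdw J w).length ≤ J
  | 0, _ => le_rfl
  | J + 1, w => by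
    have h := rdw_length_le J (Fin.init w)
    rw [rdw_succ]
    split_ifs
    · exact (push_length_le _ _).trans (Nat.succ_le_succ h)
    · exact h.trans (Nat.le_succ J)

/-! ### Sums over lazy words -/

variable [Fintype ι]

/-- sum over lazy words of length `J + 1` -/
theorem sum_words {J : ℕ} (G : (Fin (J + 1) → Bool × (ι × Bool)) → ℝ) :
    ∑ w, G w = ∑ w' : Fin J → Bool × (ι × Bool), ∑ x : Bool × (ι × Bool),
      G (Fin.snoc (α := fun _ => Bool × (ι × Bool)) w' x) := by
  rw [Finset.sum_comm, ← (Fin.snocEquiv fun _ => Bool × (ι × Bool)).sum_comp, Fintype.sum_prod_type]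
  rfl

/-- one more step -/
theorem sum_rdw {J : ℕ} (Φ : List (ι × Bool) → ℝ) :
    ∑ w : Fin (J + 1) → Bool × (ι × Bool), Φ (rdw (J + 1) w) =
      ∑ w : Fin J → Bool × (ι × Bool), (2 * (Fintype.card ι : ℝ) * Φ (rdw J w) +
        ∑ l : ι × Bool, Φ (push l (rdw J w))) := by
  rw [sum_words]
  refine Finset.sum_congr rfl fun w _ => ?_
  have h : ∀ x : Bool × (ι × Bool), rdw (J + 1)
      (Fin.snoc (α := fun _ => Bool × (ι × Bool)) w x) =
      if x.1 then push x.2 (rdw J w) else rdw J w := by
    intro x
    rw [rdw_succ, Fin.snoc_last, Fin.init_snoc]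
  simp only [h]
  rw [Fintype.sum_prod_type, Fintype.sum_bool]
  simp only [if_true, Bool.false_eq_true, if_false, Finset.sum_const, Finset.card_univ,
    nsmul_eq_mul, Fintype.card_prod, Fintype.card_bool]
  push_cast
  ring

/-! ### The law -/

theorem lt_mul_lt {α : Type} (z : ι → Perm α) (l : ι × Bool) : lt z (l.1, !l.2) * lt z l = 1 := by
  obtain ⟨i, s⟩ := l
  cases s <;> simp [lt]

theorem prm_push {α : Type} (z : ι → Perm α) (l : ι × Bool) (v : List (ι × Bool)) :
    prm z (push l v) = prm z v * lt z l := by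
  unfold push
  split_ifs with h
  · cases v with
    | nil => simp at h
    | cons a v =>
      rw [List.head?_cons, Option.some.injEq] at h
      subst h
      change prm z v = prm z v * lt z (l.1, !l.2) * lt z l
      rw [mul_assoc, lt_mul_lt, mul_one]
  · rfl

theorem prm_apply {α : Type} [Fintype α] [DecidableEq α] (z : ι → Perm α) :
    ∀ (v : List (ι × Bool)) (x : α), prm z v x = Pool.Agent.Helper60.FS.run z v x
  | [], _ => rfl
  | l :: v, x => by
    change prm z v (lt z l x) = Pool.Agent.Helper60.FS.run z v (Pool.Agent.Helper60.FS.act z l x)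
    rw [prm_apply z v]
    congr 1
    unfold lt Pool.Agent.Helper60.FS.act
    split_ifs <;> rfl

/-- LAW: the lazy law is the law of the permutation of the reduced word. -/
theorem law_eq {n K : ℕ} (hK : 0 < K) (z : Fin K → Alt n) (F : Perm (Fin n) → ℝ) (J : ℕ) :
    ∑ g, lazyLaw z J g * F g = ((4 * (K : ℝ)) ^ J)⁻¹ *
      ∑ w : Fin J → Bool × (Fin K × Bool), F (prm (fun i => (z i : Perm (Fin n))) (rdw J w)) := by
  have hK' : (0 : ℝ) < K := by exact_mod_cast hK
  induction J generalizing F with
  | zero =>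
    have h0 : ∀ g : Perm (Fin n), lazyLaw z 0 g * F g = if g = 1 then F 1 else 0 := by
      intro g
      change (if g = 1 then (1 : ℝ) else 0) * F g = _
      split_ifs with h
      · rw [h, one_mul]
      · rw [zero_mul]
    simp only [h0, Finset.sum_ite_eq', Finset.mem_univ, if_true]
    simp [rdw, prm]
  | succ J ih =>
    have h1 : ∀ g : Perm (Fin n), lazyLaw z (J + 1) g * F g = (1 / 2) * (lazyLaw z J g * F g) +
        (4 * (K : ℝ))⁻¹ * ∑ i, (lazyLaw z J (g * (z i : Perm (Fin n))⁻¹) * F g +
          lazyLaw z J (g * (z i : Perm (Fin n))) * F g) := by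
      intro g
      change ((1 / 2) * lazyLaw z J g + (4 * (K : ℝ))⁻¹ *
        ∑ i, (lazyLaw z J (g * (z i : Perm (Fin n))⁻¹) + lazyLaw z J (g * (z i : Perm (Fin n))))) *
        F g = _
      rw [add_mul, mul_assoc, mul_assoc, Finset.sum_mul]
      simp only [add_mul]
    simp only [h1]
    rw [Finset.sum_add_distrib, ← Finset.mul_sum, ← Finset.mul_sum, Finset.sum_comm]
    have h2 : ∀ i, ∑ g, (lazyLaw z J (g * (z i : Perm (Fin n))⁻¹) * F g +
        lazyLaw z J (g * (z i : Perm (Fin n))) * F g) =
        ∑ g, lazyLaw z J g * F (g * (z i : Perm (Fin n))) +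
        ∑ g, lazyLaw z J g * F (g * (z i : Perm (Fin n))⁻¹) := by
      intro i
      rw [Finset.sum_add_distrib]
      congr 1
      · rw [← Equiv.sum_comp (Equiv.mulRight (z i : Perm (Fin n)))]
        refine Finset.sum_congr rfl fun g _ => ?_
        rw [Equiv.coe_mulRight, mul_inv_cancel_right]
      · rw [← Equiv.sum_comp (Equiv.mulRight (z i : Perm (Fin n))⁻¹)]
        refine Finset.sum_congr rfl fun g _ => ?_
        rw [Equiv.coe_mulRight, inv_mul_cancel_right]
    simp only [h2]
    simp only [ih]
    rw [sum_rdw (fun v => F (prm (fun i => (z i : Perm (Fin n))) v))]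
    simp only [prm_push]
    have h3 : ∑ w : Fin J → Bool × (Fin K × Bool), ∑ l : Fin K × Bool,
        F (prm (fun i => (z i : Perm (Fin n))) (rdw J w) * lt (fun i => (z i : Perm (Fin n))) l) =
        ∑ i, (∑ w : Fin J → Bool × (Fin K × Bool),
          F (prm (fun i => (z i : Perm (Fin n))) (rdw J w) * (z i : Perm (Fin n))) +
          ∑ w : Fin J → Bool × (Fin K × Bool),
          F (prm (fun i => (z i : Perm (Fin n))) (rdw J w) * (z i : Perm (Fin n))⁻¹)) := by
      rw [Finset.sum_comm, Fintype.sum_prod_type]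
      refine Finset.sum_congr rfl fun i _ => ?_
      rw [Fintype.sum_bool]
      simp [lt]
    have h4 : ∑ w : Fin J → Bool × (Fin K × Bool), (2 * (Fintype.card (Fin K) : ℝ) *
        F (prm (fun i => (z i : Perm (Fin n))) (rdw J w)) + ∑ l : Fin K × Bool,
        F (prm (fun i => (z i : Perm (Fin n))) (rdw J w) * lt (fun i => (z i : Perm (Fin n))) l)) =
        2 * (K : ℝ) * ∑ w : Fin J → Bool × (Fin K × Bool),
          F (prm (fun i => (z i : Perm (Fin n))) (rdw J w)) +
        ∑ w : Fin J → Bool × (Fin K × Bool), ∑ l : Fin K × Bool,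
        F (prm (fun i => (z i : Perm (Fin n))) (rdw J w) *
          lt (fun i => (z i : Perm (Fin n))) l) := by
      rw [Finset.sum_add_distrib, ← Finset.mul_sum, Fintype.card_fin]
    rw [h4, h3]
    simp only [← mul_add]
    rw [← Finset.mul_sum, pow_succ]
    field_simp
    ring

/-! ### Symmetry -/

/-- the lazy step on the right -/
noncomputable def Rt {n k : ℕ} (z : Fin k → Alt n) (f : Perm (Fin n) → ℝ) (g : Perm (Fin n)) : ℝ :=
  (1 / 2) * f g + (4 * (k : ℝ))⁻¹ *
      ∑ i, (f (g * (z i : Perm (Fin n))⁻¹) + f (g * (z i : Perm (Fin n))))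

/-- the lazy step on the left -/
noncomputable def Lf {n k : ℕ} (z : Fin k → Alt n) (f : Perm (Fin n) → ℝ) (g : Perm (Fin n)) : ℝ :=
  (1 / 2) * f g + (4 * (k : ℝ))⁻¹ *
      ∑ i, (f ((z i : Perm (Fin n))⁻¹ * g) + f ((z i : Perm (Fin n)) * g))

theorem Lf_Rt {n k : ℕ} (z : Fin k → Alt n) (f : Perm (Fin n) → ℝ) (g : Perm (Fin n)) :
    Lf z (Rt z f) g = Rt z (Lf z f) g := by
  have c1 : ∑ i, ∑ j, f ((z i : Perm (Fin n))⁻¹ * (g * (z j : Perm (Fin n))⁻¹)) =
      ∑ j, ∑ i, f ((z i : Perm (Fin n))⁻¹ * (g * (z j : Perm (Fin n))⁻¹)) := Finset.sum_comm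
  have c2 : ∑ i, ∑ j, f ((z i : Perm (Fin n))⁻¹ * (g * (z j : Perm (Fin n)))) =
      ∑ j, ∑ i, f ((z i : Perm (Fin n))⁻¹ * (g * (z j : Perm (Fin n)))) := Finset.sum_comm
  have c3 : ∑ i, ∑ j, f ((z i : Perm (Fin n)) * (g * (z j : Perm (Fin n))⁻¹)) =
      ∑ j, ∑ i, f ((z i : Perm (Fin n)) * (g * (z j : Perm (Fin n))⁻¹)) := Finset.sum_comm
  have c4 : ∑ i, ∑ j, f ((z i : Perm (Fin n)) * (g * (z j : Perm (Fin n)))) =
      ∑ j, ∑ i, f ((z i : Perm (Fin n)) * (g * (z j : Perm (Fin n)))) := Finset.sum_comm
  simp only [Lf, Rt, Finset.sum_add_distrib, ← Finset.mul_sum, mul_assoc]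
  rw [c1, c2, c3, c4]
  ring

/-- the recursion on the left -/
theorem lazy_left {n k : ℕ} (z : Fin k → Alt n) (m : ℕ) :
    lazyLaw z (m + 1) = Lf z (lazyLaw z m) := by
  have hs : ∀ m, lazyLaw z (m + 1) = Rt z (lazyLaw z m) := fun _ => rfl
  induction m with
  | zero =>
    rw [hs]
    funext g
    have h0 : ∀ h : Perm (Fin n), lazyLaw z 0 h = if h = 1 then 1 else 0 := fun _ => rfl
    unfold Rt Lf
    congr 2
    refine Finset.sum_congr rfl fun i _ => ?_
    simp only [h0]
    congr 1
    · congr 1
      rw [eq_iff_iff]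
      constructor
      · intro h
        rw [mul_inv_eq_one] at h
        rw [h, inv_mul_cancel]
      · intro h
        rw [inv_mul_eq_one] at h
        rw [h, mul_inv_cancel]
    · congr 1
      rw [eq_iff_iff]
      constructor
      · intro h
        exact mul_eq_one_comm.1 h
      · intro h
        exact mul_eq_one_comm.1 h
  | succ m ih =>
    rw [hs]
    conv_lhs => rw [ih]
    conv_rhs => rw [hs]
    funext g
    exact (Lf_Rt z _ g).symm

/-- LAW: the lazy law is symmetric. -/
theorem lazy_symm {n k : ℕ} (z : Fin k → Alt n) (m : ℕ) (g : Perm (Fin n)) :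
    lazyLaw z m g⁻¹ = lazyLaw z m g := by
  have hs : ∀ m, lazyLaw z (m + 1) = Rt z (lazyLaw z m) := fun _ => rfl
  induction m generalizing g with
  | zero =>
    have h0 : ∀ h : Perm (Fin n), lazyLaw z 0 h = if h = 1 then 1 else 0 := fun _ => rfl
    simp only [h0, inv_eq_one]
  | succ m ih =>
    have h1 : lazyLaw z (m + 1) g = Lf z (lazyLaw z m) g := by rw [lazy_left]
    rw [h1, hs]
    unfold Rt Lf
    rw [ih]
    congr 2
    refine Finset.sum_congr rfl fun i _ => ?_
    rw [← ih ((z i : Perm (Fin n))⁻¹ * g), ← ih ((z i : Perm (Fin n)) * g), _root_.mul_inv_rev,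
      _root_.mul_inv_rev, inv_inv, add_comm]

/-! ### The number of lazy words with a given reduced word -/

/-- the number of lazy words with the reduced word `v` -/
noncomputable def cnt (J : ℕ) (v : List (ι × Bool)) : ℝ :=
  ∑ w : Fin J → Bool × (ι × Bool), if rdw J w = v then 1 else 0

theorem cnt_eq_card (J : ℕ) (v : List (ι × Bool)) :
    cnt J v = ((Finset.univ.filter fun w : Fin J → Bool × (ι × Bool) => rdw J w = v).card : ℝ) := by
  unfold cnt
  rw [Finset.sum_boole]

theorem cnt_nonneg (J : ℕ) (v : List (ι × Bool)) : 0 ≤ cnt J v :=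
  Finset.sum_nonneg fun w _ => by split_ifs <;> norm_num

theorem cnt_of_not_reduced (J : ℕ) {v : List (ι × Bool)} (hv : ¬ FreeGroup.IsReduced v) :
    cnt J v = 0 :=
  Finset.sum_eq_zero fun w _ => if_neg fun h => hv (by rw [← h]; exact rdw_reduced J w)

theorem push_eq (l : ι × Bool) (u v : List (ι × Bool)) (h : push l u = v) :
    u = (l.1, !l.2) :: v ∨ v = l :: u := by
  unfold push at h
  split_ifs at h with h1
  · left
    cases u with
    | nil => simp at h1
    | cons a u =>
      rw [List.head?_cons, Option.some.injEq] at h1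
      rw [List.tail_cons] at h
      rw [h1, h]
  · exact Or.inr h.symm

theorem cnt_succ_le (J : ℕ) (v : List (ι × Bool)) :
    cnt (J + 1) v ≤ 2 * (Fintype.card ι : ℝ) * cnt J v + ∑ l : ι × Bool, cnt J ((l.1, !l.2) :: v) +
      ∑ l : ι × Bool, ∑ w : Fin J → Bool × (ι × Bool), if v = l :: rdw J w then 1 else 0 := by
  unfold cnt
  rw [sum_rdw (fun u => if u = v then (1 : ℝ) else 0), Finset.sum_add_distrib, ← Finset.mul_sum,
    Finset.sum_comm, add_assoc, ← Finset.sum_add_distrib]
  refine add_le_add le_rfl (Finset.sum_le_sum fun l _ => ?_)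
  rw [← Finset.sum_add_distrib]
  refine Finset.sum_le_sum fun w _ => ?_
  by_cases h : push l (rdw J w) = v
  · rw [if_pos h]
    rcases push_eq l _ _ h with h1 | h1
    · rw [if_pos h1]
      split_ifs <;> norm_num
    · rw [if_pos h1]
      split_ifs <;> norm_num
  · rw [if_neg h]
    split_ifs <;> norm_num

theorem card_letters : (Fintype.card (ι × Bool) : ℝ) = 2 * (Fintype.card ι : ℝ) := by
  rw [Fintype.card_prod, Fintype.card_bool]
  push_cast
  ring

/-- NBC: the number of lazy words with a given reduced word. -/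
theorem cnt_le (hK : 0 < Fintype.card ι) (J : ℕ) (v : List (ι × Bool)) :
    cnt J v * (2 * (Fintype.card ι : ℝ) - 1) ^ v.length ≤ (4 * (Fintype.card ι : ℝ)) ^ J := by
  set K : ℝ := (Fintype.card ι : ℝ) with hKdef
  have hK1 : 1 ≤ K := by
    rw [hKdef]
    exact_mod_cast hK
  set q : ℝ := 2 * K - 1 with hq
  have hq1 : 1 ≤ q := by
    rw [hq]
    linarith
  have hq0 : 0 < q := by linarith
  induction J generalizing v with
  | zero =>
    have h0 : cnt 0 v = if ([] : List (ι × Bool)) = v then 1 else 0 := by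
      unfold cnt
      simp [rdw]
    rw [h0, pow_zero]
    split_ifs with h
    · rw [← h, List.length_nil, pow_zero, mul_one]
    · rw [zero_mul]
      exact zero_le_one
  | succ J ih =>
    have hB : 0 ≤ (4 * K) ^ J := by positivity
    cases v with
    | nil =>
      have h1 := cnt_succ_le J ([] : List (ι × Bool))
      have h2 : ∑ l : ι × Bool, ∑ w : Fin J → Bool × (ι × Bool),
          (if ([] : List (ι × Bool)) = l :: rdw J w then (1 : ℝ) else 0) = 0 :=
        Finset.sum_eq_zero fun l _ => Finset.sum_eq_zero fun w _ => if_neg (by simp)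
      have h3 : ∑ l : ι × Bool, cnt J ((l.1, !l.2) :: ([] : List (ι × Bool))) ≤
          ∑ _l : ι × Bool, (4 * K) ^ J := by
        refine Finset.sum_le_sum fun l _ => ?_
        have h4 := ih ((l.1, !l.2) :: ([] : List (ι × Bool)))
        rw [List.length_cons, List.length_nil, zero_add, pow_one] at h4
        refine le_trans ?_ h4
        exact le_mul_of_one_le_right (cnt_nonneg _ _) hq1
      rw [Finset.sum_const, Finset.card_univ, nsmul_eq_mul, card_letters] at h3
      have h5 := ih ([] : List (ι × Bool))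
      rw [List.length_nil, pow_zero, mul_one] at h5 ⊢
      rw [pow_succ]
      rw [h2, add_zero] at h1
      have h6 : 2 * K * cnt J ([] : List (ι × Bool)) ≤ 2 * K * (4 * K) ^ J :=
        mul_le_mul_of_nonneg_left h5 (by linarith)
      nlinarith
    | cons a v =>
      have h1 := cnt_succ_le J (a :: v)
      have h2 : ∑ l : ι × Bool, ∑ w : Fin J → Bool × (ι × Bool),
          (if a :: v = l :: rdw J w then (1 : ℝ) else 0) ≤ cnt J v := by
        rw [Finset.sum_eq_single a]
        · unfold cnt
          refine Finset.sum_le_sum fun w _ => ?_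
          by_cases h : a :: v = a :: rdw J w
          · rw [if_pos h, if_pos (List.cons_inj_right _ |>.mp h).symm]
          · rw [if_neg h]
            split_ifs <;> norm_num
        · intro l _ hl
          refine Finset.sum_eq_zero fun w _ => if_neg fun h => hl ?_
          exact (List.cons_eq_cons.mp h).1.symm
        · intro h
          exact absurd (Finset.mem_univ _) h
      have h3 : (∑ l : ι × Bool, cnt J ((l.1, !l.2) :: a :: v)) * q ^ (v.length + 2) ≤
          q * (4 * K) ^ J := by
        rw [← Finset.add_sum_erase _ _ (Finset.mem_univ a)]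
        have h4 : cnt J ((a.1, !a.2) :: a :: v) = 0 := by
          apply cnt_of_not_reduced
          rw [FreeGroup.isReduced_cons_cons]
          rintro ⟨h5, -⟩
          have := h5 rfl
          simp at this
        rw [h4, zero_add, Finset.sum_mul]
        have h5 : ∀ l ∈ Finset.univ.erase a, cnt J ((l.1, !l.2) :: a :: v) * q ^ (v.length + 2) ≤
            (4 * K) ^ J := by
          intro l _
          have h6 := ih ((l.1, !l.2) :: a :: v)
          rwa [List.length_cons, List.length_cons] at h6
        refine (Finset.sum_le_sum h5).trans (le_of_eq ?_)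
        rw [Finset.sum_const, nsmul_eq_mul, Finset.card_erase_of_mem (Finset.mem_univ _),
          Finset.card_univ]
        congr 1
        have h7 : 1 ≤ Fintype.card (ι × Bool) := by
          rw [Fintype.card_prod, Fintype.card_bool]
          omega
        rw [Nat.cast_sub h7, card_letters, Nat.cast_one]
      have h8 : (∑ l : ι × Bool, cnt J ((l.1, !l.2) :: a :: v)) * q ^ (v.length + 1) ≤
          (4 * K) ^ J := by
        rw [pow_succ, ← mul_assoc, mul_comm q] at h3
        exact le_of_mul_le_mul_right h3 hq0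
      have h9 := ih (a :: v)
      have h10 := ih v
      rw [List.length_cons] at h9 ⊢
      have h11 : cnt J v * q ^ (v.length + 1) ≤ q * (4 * K) ^ J := by
        rw [pow_succ, ← mul_assoc, mul_comm q]
        exact mul_le_mul_of_nonneg_right h10 hq0.le
      have hqp : 0 ≤ q ^ (v.length + 1) := by positivity
      calc cnt (J + 1) (a :: v) * q ^ (v.length + 1)
          ≤ (2 * K * cnt J (a :: v) + ∑ l : ι × Bool, cnt J ((l.1, !l.2) :: a :: v) + cnt J v) *
            q ^ (v.length + 1) := by
            refine mul_le_mul_of_nonneg_right (h1.trans ?_) hqp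
            linarith
        _ = 2 * K * (cnt J (a :: v) * q ^ (v.length + 1)) +
            (∑ l : ι × Bool, cnt J ((l.1, !l.2) :: a :: v)) * q ^ (v.length + 1) +
            cnt J v * q ^ (v.length + 1) := by ring
        _ ≤ 2 * K * (4 * K) ^ J + (4 * K) ^ J + q * (4 * K) ^ J := by
            have := mul_le_mul_of_nonneg_left h9 (by linarith : (0 : ℝ) ≤ 2 * K)
            linarith
        _ = (4 * K) ^ (J + 1) := by
            rw [hq, pow_succ]
            ring

/-- NBC, with cardinalities. -/
theorem card_le (hK : 0 < Fintype.card ι) (J : ℕ) (v : List (ι × Bool)) :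
    ((Finset.univ.filter fun w : Fin J → Bool × (ι × Bool) => rdw J w = v).card : ℝ) *
      (2 * (Fintype.card ι : ℝ) - 1) ^ v.length ≤ (4 * (Fintype.card ι : ℝ)) ^ J := by
  rw [← cnt_eq_card]
  exact cnt_le hK J v

/-- Sums over lazy words by sums over all words of each length. -/
theorem sum_le_lengths (hK : 0 < Fintype.card ι) (J j1 : ℕ) (Ψ : List (ι × Bool) → ℝ)
    (hΨ : ∀ v, 0 ≤ Ψ v) :
    ∑ w : Fin J → Bool × (ι × Bool), (if j1 ≤ (rdw J w).length then Ψ (rdw J w) else 0) ≤
      (4 * (Fintype.card ι : ℝ)) ^ J * ∑ ℓ ∈ Finset.Icc j1 J,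
        ((2 * (Fintype.card ι : ℝ) - 1) ^ ℓ)⁻¹ *
          ∑ v : Fin ℓ → ι × Bool, Ψ (List.ofFn v) := by
  have hq : (0 : ℝ) < 2 * (Fintype.card ι : ℝ) - 1 := by
    have : (1 : ℝ) ≤ (Fintype.card ι : ℝ) := by exact_mod_cast hK
    linarith
  have h1 : ∀ w : Fin J → Bool × (ι × Bool),
      (if j1 ≤ (rdw J w).length then Ψ (rdw J w) else 0) =
      ∑ ℓ ∈ Finset.Icc j1 J, ∑ v : Fin ℓ → ι × Bool,
        (if rdw J w = List.ofFn v then Ψ (List.ofFn v) else 0) := by
    intro w
    by_cases h : j1 ≤ (rdw J w).length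
    · rw [if_pos h, Finset.sum_eq_single (rdw J w).length]
      · rw [Finset.sum_eq_single (fun i : Fin (rdw J w).length => (rdw J w).get i)]
        · rw [List.ofFn_get, if_pos rfl]
        · intro v _ hv
          rw [if_neg]
          intro h2
          apply hv
          funext i
          have h3 : (List.ofFn v).get (i.cast (by rw [List.length_ofFn])) = v i := by simp
          rw [← h3]
          have h4 : ∀ (A B : List (ι × Bool)) (hAB : A = B) (i : Fin A.length),
              A.get i = B.get (i.cast (by rw [hAB])) := by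
            intro A B hAB i
            subst hAB
            rfl
          rw [h4 _ _ h2 i]
        · intro h2
          exact absurd (Finset.mem_univ _) h2
      · intro ℓ _ hℓ
        refine Finset.sum_eq_zero fun v _ => if_neg fun h2 => hℓ ?_
        rw [h2, List.length_ofFn]
      · intro h2
        rw [Finset.mem_Icc, not_and] at h2
        exact absurd (rdw_length_le J w) (h2 h)
    · rw [if_neg h]
      symm
      refine Finset.sum_eq_zero fun ℓ hℓ => Finset.sum_eq_zero fun v _ => if_neg fun h2 => h ?_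
      rw [h2, List.length_ofFn]
      exact (Finset.mem_Icc.1 hℓ).1
  simp only [h1]
  rw [Finset.sum_comm, Finset.mul_sum]
  refine Finset.sum_le_sum fun ℓ _ => ?_
  rw [Finset.sum_comm, Finset.mul_sum, Finset.mul_sum]
  refine Finset.sum_le_sum fun v _ => ?_
  have h2 : ∑ w : Fin J → Bool × (ι × Bool), (if rdw J w = List.ofFn v then
      Ψ (List.ofFn v) else 0) = cnt J (List.ofFn v) * Ψ (List.ofFn v) := by
    unfold cnt
    rw [Finset.sum_mul]
    refine Finset.sum_congr rfl fun w _ => ?_
    split_ifs <;> simp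
  have h3 := cnt_le hK J (List.ofFn v)
  rw [List.length_ofFn] at h3
  rw [h2, ← mul_assoc]
  refine mul_le_mul_of_nonneg_right ?_ (hΨ _)
  rw [← div_eq_mul_inv, le_div_iff₀ (pow_pos hq _)]
  exact h3

/-! ### The length of the reduced word -/

theorem sum_push_le (u : List (ι × Bool)) :
    ∑ l : ι × Bool, ((1 : ℝ) / 16) ^ (push l u).length ≤
      (2 * (Fintype.card ι : ℝ) / 16 + 16) * (1 / 16) ^ u.length := by
  have h1 : ∀ l : ι × Bool, ((1 : ℝ) / 16) ^ (push l u).length ≤
      (1 / 16) * (1 / 16) ^ u.length +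
        (if u.head? = some (l.1, !l.2) then 16 * (1 / 16) ^ u.length else 0) := by
    intro l
    unfold push
    split_ifs with h
    · cases u with
      | nil => simp at h
      | cons a u =>
        rw [List.tail_cons, List.length_cons, pow_succ]
        have : (0 : ℝ) ≤ (1 / 16) ^ u.length := by positivity
        nlinarith
    · rw [List.length_cons, pow_succ, add_zero, mul_comm]
  have h2 : ∑ l : ι × Bool, (if u.head? = some (l.1, !l.2) then (16 : ℝ) * (1 / 16) ^ u.length
      else 0) ≤ 16 * (1 / 16) ^ u.length := by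
    have hp : (0 : ℝ) ≤ 16 * (1 / 16) ^ u.length := by positivity
    cases u with
    | nil =>
      refine (Finset.sum_nonpos fun l _ => ?_).trans hp
      rw [List.head?_nil, if_neg (by simp)]
    | cons a u =>
      rw [Finset.sum_eq_single ((a.1, !a.2) : ι × Bool)]
      · split_ifs
        · exact le_rfl
        · exact hp
      · intro l _ hl
        rw [if_neg]
        intro h
        rw [List.head?_cons, Option.some.injEq] at h
        apply hl
        rw [h]
        simp
      · intro h
        exact absurd (Finset.mem_univ _) h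
  refine (Finset.sum_le_sum fun l _ => h1 l).trans ?_
  rw [Finset.sum_add_distrib, Finset.sum_const, Finset.card_univ, nsmul_eq_mul, card_letters]
  calc 2 * (Fintype.card ι : ℝ) * (1 / 16 * (1 / 16) ^ u.length) + _
      ≤ 2 * (Fintype.card ι : ℝ) * (1 / 16 * (1 / 16) ^ u.length) + 16 * (1 / 16) ^ u.length :=
        add_le_add le_rfl h2
    _ = _ := by ring

theorem moment_le (hK : 128 ≤ Fintype.card ι) (J : ℕ) :
    ∑ w : Fin J → Bool × (ι × Bool), ((1 : ℝ) / 16) ^ (rdw J w).length ≤
      (9 / 16) ^ J * (4 * (Fintype.card ι : ℝ)) ^ J := by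
  have hK' : (128 : ℝ) ≤ (Fintype.card ι : ℝ) := by exact_mod_cast hK
  induction J with
  | zero => simp [rdw]
  | succ J ih =>
    rw [sum_rdw (fun v => ((1 : ℝ) / 16) ^ v.length)]
    have h1 : ∀ w : Fin J → Bool × (ι × Bool), 2 * (Fintype.card ι : ℝ) *
        (1 / 16) ^ (rdw J w).length + ∑ l : ι × Bool, ((1 : ℝ) / 16) ^ (push l (rdw J w)).length ≤
        9 / 4 * (Fintype.card ι : ℝ) * (1 / 16) ^ (rdw J w).length := by
      intro w
      have h2 := sum_push_le (rdw J w)
      have h3 : (0 : ℝ) ≤ (1 / 16) ^ (rdw J w).length := by positivity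
      have h4 : (2 * (Fintype.card ι : ℝ) / 16 + 16) * (1 / 16) ^ (rdw J w).length ≤
          (1 / 4 * (Fintype.card ι : ℝ)) * (1 / 16) ^ (rdw J w).length := by
        refine mul_le_mul_of_nonneg_right ?_ h3
        linarith
      linarith
    refine (Finset.sum_le_sum fun w _ => h1 w).trans ?_
    rw [← Finset.mul_sum]
    calc 9 / 4 * (Fintype.card ι : ℝ) * ∑ w : Fin J → Bool × (ι × Bool),
          ((1 : ℝ) / 16) ^ (rdw J w).length
        ≤ 9 / 4 * (Fintype.card ι : ℝ) * ((9 / 16) ^ J * (4 * (Fintype.card ι : ℝ)) ^ J) :=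
          mul_le_mul_of_nonneg_left ih (by positivity)
      _ = _ := by
          rw [pow_succ, pow_succ]
          ring

/-- LEN: the reduced word is long. -/
theorem len_le (hK : 128 ≤ Fintype.card ι) {J j1 : ℕ} (hj : 10 * j1 ≤ J) :
    ((Finset.univ.filter fun w : Fin J → Bool × (ι × Bool) => (rdw J w).length < j1).card : ℝ) ≤
      (3 / 4) ^ J * (4 * (Fintype.card ι : ℝ)) ^ J := by
  have h1 := moment_le hK J
  have h2 : ((Finset.univ.filter fun w : Fin J → Bool × (ι × Bool) =>
      (rdw J w).length < j1).card : ℝ) * (1 / 16) ^ j1 ≤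
      ∑ w : Fin J → Bool × (ι × Bool), ((1 : ℝ) / 16) ^ (rdw J w).length := by
    rw [← Finset.sum_boole, Finset.sum_mul]
    refine Finset.sum_le_sum fun w _ => ?_
    split_ifs with h
    · rw [one_mul]
      exact pow_le_pow_of_le_one (by norm_num) (by norm_num) h.le
    · rw [zero_mul]
      positivity
  have h3 : ((16 : ℝ)) ^ j1 ≤ (4 / 3) ^ J := by
    calc ((16 : ℝ)) ^ j1 ≤ ((4 / 3) ^ 10) ^ j1 :=
          pow_le_pow_left₀ (by norm_num) (by norm_num) _
      _ = (4 / 3) ^ (10 * j1) := by rw [pow_mul]
      _ ≤ (4 / 3) ^ J := pow_le_pow_right₀ (by norm_num) hj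
  have h4 : (1 / 16 : ℝ) ^ j1 * 16 ^ j1 = 1 := by
    rw [← mul_pow]
    norm_num
  have hW : (0 : ℝ) ≤ (4 * (Fintype.card ι : ℝ)) ^ J := by positivity
  calc ((Finset.univ.filter fun w : Fin J → Bool × (ι × Bool) =>
      (rdw J w).length < j1).card : ℝ)
      = (((Finset.univ.filter fun w : Fin J → Bool × (ι × Bool) =>
        (rdw J w).length < j1).card : ℝ) * (1 / 16) ^ j1) * 16 ^ j1 := by
        rw [mul_assoc, h4, mul_one]
    _ ≤ ((9 / 16) ^ J * (4 * (Fintype.card ι : ℝ)) ^ J) * (4 / 3) ^ J :=
        mul_le_mul (h2.trans h1) h3 (by positivity) (by positivity)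
    _ = (3 / 4) ^ J * (4 * (Fintype.card ι : ℝ)) ^ J := by
        rw [mul_right_comm, ← mul_pow]
        norm_num

end Pool.Agent.Helper77.FS
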