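import Pool.Agent.Helper38.FS.Defs
import Pool.Agent.Helper77.FS.Law

/-!
# Lazy words and their reduced words (MP_75608d_al, project FS), for the definitions of
`Pool.Agent.Helper38.FS.Defs`
-/

set_option autoImplicit false

namespace Pool.Agent.Helper77.FSD

open Finset Equiv
open Pool.Agent.Helper3.AK (Alt lazyLaw)
open Pool.Agent.Helper38.FS

variable {n K : ℕ}

theorem push_eq (l : Lt K) (v : List (Lt K)) : push l v = Pool.Agent.Helper77.FS.push l v := by
  unfold Pool.Agent.Helper77.FS.push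
  cases v with
  | nil =>
    rw [List.head?_nil, if_neg (by simp)]
    rfl
  | cons a v =>
    rw [List.head?_cons, List.tail_cons]
    change (if a = inv l then v else l :: a :: v) = _
    unfold inv
    by_cases h : a = (l.1, !l.2)
    · rw [if_pos h, if_pos (by rw [h])]
    · rw [if_neg h, if_neg (fun h' => h (Option.some.inj h'))]

/-- the reversed lazy word -/
def rv {J : ℕ} : Wd K J ≃ (Fin J → Bool × (Fin K × Bool)) where
  toFun w i := w (Fin.rev i)
  invFun w i := w (Fin.rev i)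
  left_inv w := by funext i; simp
  right_inv w := by funext i; simp

theorem rdw_eq : ∀ (J : ℕ) (w : Wd K J), rdw J w = Pool.Agent.Helper77.FS.rdw J (rv w)
  | 0, _ => rfl
  | J + 1, w => by
    have h1 : (rv w) (Fin.last J) = w 0 := by
      change w (Fin.rev (Fin.last J)) = w 0
      rw [Fin.rev_last]
    have h2 : Fin.init (rv w) = rv (Fin.tail w) := by
      funext i
      change w (Fin.rev (Fin.castSucc i)) = w (Fin.succ (Fin.rev i))
      rw [Fin.rev_castSucc]
    rw [Pool.Agent.Helper77.FS.rdw_succ, h1, h2]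
    change (if (w 0).1 = true then push (w 0).2 (rdw J (Fin.tail w)) else rdw J (Fin.tail w)) = _
    rw [push_eq, rdw_eq J (Fin.tail w)]

/-- RED -/
theorem rdw_reduced (J : ℕ) (w : Wd K J) : FreeGroup.IsReduced (rdw J w) := by
  rw [rdw_eq]
  exact Pool.Agent.Helper77.FS.rdw_reduced J _

/-- RED -/
theorem rdw_length_le (J : ℕ) (w : Wd K J) : (rdw J w).length ≤ J := by
  rw [rdw_eq]
  exact Pool.Agent.Helper77.FS.rdw_length_le J _

theorem pm_eq (z : Fin K → Perm (Fin n)) :
    ∀ v : List (Lt K), pm z v = Pool.Agent.Helper77.FS.prm z v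
  | [] => rfl
  | l :: v => by
    change pm z v * (if l.2 = true then z l.1 else (z l.1)⁻¹) =
      Pool.Agent.Helper77.FS.prm z v * (if l.2 = true then z l.1 else (z l.1)⁻¹)
    rw [pm_eq z v]

/-- the permutation of a word and its paths -/
theorem pm_run (z : Fin K → Perm (Fin n)) (v : List (Lt K)) (x : Fin n) :
    pm z v x = Pool.Agent.Helper60.FS.run z v x := by
  rw [pm_eq, Pool.Agent.Helper77.FS.prm_apply]

theorem sum_rv {J : ℕ} (Φ : List (Lt K) → ℝ) :
    ∑ w : Wd K J, Φ (rdw J w) =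
      ∑ w : Fin J → Bool × (Fin K × Bool), Φ (Pool.Agent.Helper77.FS.rdw J w) := by
  rw [← (rv (K := K) (J := J)).sum_comp (fun w => Φ (Pool.Agent.Helper77.FS.rdw J w))]
  exact Finset.sum_congr rfl fun w _ => by rw [rdw_eq]

/-- LAW -/
theorem law_eq (hK : 0 < K) (z : Fin K → Alt n) (F : Perm (Fin n) → ℝ) (J : ℕ) :
    ∑ g, lazyLaw z J g * F g =
      ((4 * (K : ℝ)) ^ J)⁻¹ * ∑ w : Wd K J, F (pm (up z) (rdw J w)) := by
  rw [Pool.Agent.Helper77.FS.law_eq hK z F J, sum_rv (fun v => F (pm (up z) v))]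
  simp only [pm_eq]
  rfl

open Classical in
/-- LAW for events -/
theorem law_prW (hK : 0 < K) (z : Fin K → Alt n) (A : Perm (Fin n) → Prop) (J : ℕ) :
    ∑ g, lazyLaw z J g * (if A g then 1 else 0) = prW K J (fun w => A (pm (up z) (rdw J w))) := by
  rw [law_eq hK z (fun g => if A g then 1 else 0) J, Finset.sum_boole]
  unfold prW
  rw [div_eq_inv_mul]

/-- LAW: symmetry -/
theorem lazy_symm (z : Fin K → Alt n) (m : ℕ) (g : Perm (Fin n)) :
    lazyLaw z m g⁻¹ = lazyLaw z m g := Pool.Agent.Helper77.FS.lazy_symm z m g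

open Classical in
theorem prW_rdw (J : ℕ) (A : List (Lt K) → Prop) :
    prW K J (fun w => A (rdw J w)) = ((Finset.univ.filter
      fun w : Fin J → Bool × (Fin K × Bool) => A (Pool.Agent.Helper77.FS.rdw J w)).card : ℝ) /
        (4 * (K : ℝ)) ^ J := by
  unfold prW
  rw [← Finset.sum_boole, ← Finset.sum_boole, sum_rv (fun v => if A v then (1 : ℝ) else 0)]

/-- NBC -/
theorem nbc (hK : 0 < K) (J : ℕ) (v : List (Lt K)) :
    prW K J (fun w => rdw J w = v) * (2 * (K : ℝ) - 1) ^ v.length ≤ 1 := by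
  have hK' : (0 : ℝ) < K := by exact_mod_cast hK
  have h := Pool.Agent.Helper77.FS.card_le (ι := Fin K) (by rw [Fintype.card_fin]; exact hK) J v
  rw [Fintype.card_fin] at h
  rw [prW_rdw J (fun u => u = v), div_mul_eq_mul_div, div_le_one (by positivity)]
  refine le_trans (le_of_eq ?_) h
  congr

/-- LEN -/
theorem len (hK : 128 ≤ K) {J j1 : ℕ} (hj : 10 * j1 ≤ J) :
    prW K J (fun w => (rdw J w).length < j1) ≤ (3 / 4) ^ J := by
  have hK' : (0 : ℝ) < K := by
    have : 0 < K := by omega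
    exact_mod_cast this
  have h := Pool.Agent.Helper77.FS.len_le (ι := Fin K) (by rw [Fintype.card_fin]; exact hK) hj
  rw [Fintype.card_fin] at h
  rw [prW_rdw J (fun u => u.length < j1), div_le_iff₀ (by positivity)]
  refine le_trans (le_of_eq ?_) h
  congr

/-- sums over lazy words by sums over all words of each length -/
theorem sum_le_lengths (hK : 0 < K) (J j1 : ℕ) (Ψ : List (Lt K) → ℝ) (hΨ : ∀ v, 0 ≤ Ψ v) :
    ∑ w : Wd K J, (if j1 ≤ (rdw J w).length then Ψ (rdw J w) else 0) ≤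
      (4 * (K : ℝ)) ^ J * ∑ ℓ ∈ Finset.Icc j1 J,
        ((2 * (K : ℝ) - 1) ^ ℓ)⁻¹ * ∑ v : Fin ℓ → Lt K, Ψ (List.ofFn v) := by
  have h := Pool.Agent.Helper77.FS.sum_le_lengths (ι := Fin K)
    (by rw [Fintype.card_fin]; exact hK) J j1 Ψ hΨ
  rw [Fintype.card_fin] at h
  rw [sum_rv (fun v => if j1 ≤ v.length then Ψ v else 0)]
  exact h

open Classical in
/-- the same for events: words of length at least `j1` -/
theorem prW_le_lengths (hK : 0 < K) (J j1 : ℕ) (A : List (Lt K) → Prop) :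
    prW K J (fun w => j1 ≤ (rdw J w).length ∧ A (rdw J w)) ≤
      ∑ ℓ ∈ Finset.Icc j1 J, ((2 * (K : ℝ) - 1) ^ ℓ)⁻¹ *
        ((Finset.univ.filter fun v : Fin ℓ → Lt K => A (List.ofFn v)).card : ℝ) := by
  have hK' : (0 : ℝ) < K := by exact_mod_cast hK
  have h := sum_le_lengths hK J j1 (fun v => if A v then (1 : ℝ) else 0)
    (fun v => by split_ifs <;> norm_num)
  unfold prW
  rw [div_le_iff₀ (by positivity), ← Finset.sum_boole, mul_comm]
  refine le_trans (le_of_eq (Finset.sum_congr rfl fun w _ => ?_)) (h.trans (le_of_eq ?_))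
  · by_cases h1 : j1 ≤ (rdw J w).length <;> by_cases h2 : A (rdw J w) <;> simp [h1, h2]
  · congr 1
    refine Finset.sum_congr rfl fun ℓ _ => ?_
    rw [Finset.sum_boole]

end Pool.Agent.Helper77.FSD
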