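import Pool.Agent.Helper86.FS.StartGoals

/-!
# Project FS, part START: goal UB (any two of the `2 m` tuples have few common places)
-/

set_option autoImplicit false

namespace Pool.Agent.Helper77.FS

open Equiv Pool.Agent.Helper3.AK Pool.Agent.Helper86.FS

namespace UB

/-- Two different coordinates under a product weight. -/
theorem two {ι X : Type} [Fintype ι] [DecidableEq ι] [Fintype X] [DecidableEq X] (p : ι → X → ℝ)
    (hp0 : ∀ j x, 0 ≤ p j x) (hp1 : ∀ j, ∑ x, p j x = 1) {e e' : ι} (hne : e ≠ e')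
    (H : X → X → ℝ) (δ : ℝ) (hH : ∀ a, ∑ x, p e' x * H a x ≤ δ) :
    ∑ ω : ι → X, (∏ j, p j (ω j)) * H (ω e) (ω e') ≤ δ := by
  -- the factors
  set q : X → ι → X → ℝ := fun a j x => p j x *
    (if j = e then (if x = a then 1 else 0) else if j = e' then H a x else 1) with hq
  have h1 : ∀ ω : ι → X, (∏ j, p j (ω j)) * H (ω e) (ω e') = ∑ a, ∏ j, q a j (ω j) := by
    intro ω
    have h2 : ∀ a, ∏ j, q a j (ω j) = (∏ j, p j (ω j)) *
        ((if ω e = a then 1 else 0) * H a (ω e')) := by
      intro a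
      rw [hq, Finset.prod_mul_distrib]
      congr 1
      rw [Finset.prod_eq_mul e e' hne]
      · rw [if_pos rfl, if_neg hne.symm, if_pos rfl]
      · rintro j - ⟨hj1, hj2⟩
        rw [if_neg hj1, if_neg hj2]
      · intro h
        exact absurd (Finset.mem_univ _) h
      · intro h
        exact absurd (Finset.mem_univ _) h
    simp only [h2]
    rw [← Finset.mul_sum]
    congr 1
    rw [Finset.sum_eq_single (ω e)]
    · rw [if_pos rfl, one_mul]
    · intro a _ ha
      rw [if_neg (fun h => ha h.symm), zero_mul]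
    · intro h
      exact absurd (Finset.mem_univ _) h
  have h3 : ∀ a, ∑ ω : ι → X, ∏ j, q a j (ω j) = p e a * ∑ x, p e' x * H a x := by
    intro a
    rw [← Fintype.piFinset_univ, ← Finset.prod_univ_sum, Finset.prod_eq_mul e e' hne]
    · congr 1
      · rw [hq]
        simp
      · rw [hq]
        simp [hne.symm]
    · rintro j - ⟨hj1, hj2⟩
      rw [hq]
      simp only [hj1, hj2, if_false, mul_one]
      exact hp1 j
    · intro h
      exact absurd (Finset.mem_univ _) h
    · intro h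
      exact absurd (Finset.mem_univ _) h
  calc ∑ ω : ι → X, (∏ j, p j (ω j)) * H (ω e) (ω e')
      = ∑ a, ∑ ω : ι → X, ∏ j, q a j (ω j) := by
        rw [Finset.sum_comm]
        exact Finset.sum_congr rfl fun ω _ => h1 ω
    _ = ∑ a, p e a * ∑ x, p e' x * H a x := Finset.sum_congr rfl fun a _ => h3 a
    _ ≤ ∑ a, p e a * δ :=
        Finset.sum_le_sum fun a _ => mul_le_mul_of_nonneg_left (hH a) (hp0 e a)
    _ = δ := by rw [← Finset.sum_mul, hp1, one_mul]

/-- the weight of the coordinates -/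
noncomputable def wt {n b m : ℕ} (f0 f1 : Fn n b) : Fin m ⊕ Fin m → (Fin b ↪ Fin n) → ℝ
  | Sum.inl _, x => f0 x ^ 2
  | Sum.inr _, x => f1 x ^ 2

/-- overlaps larger than `B` -/
noncomputable def HB {n b : ℕ} (B : ℝ) (x x' : Fin b ↪ Fin n) : ℝ :=
  if B < (ov x x' : ℝ) then 1 else 0

theorem ov_comm {n b : ℕ} (x x' : Fin b ↪ Fin n) : ov x x' = ov x' x := by
  unfold ov
  rw [Finset.inter_comm]

end UB

open UB

/-- UB -/
theorem ub : UBStmt := by
  classical
  intro n b m f0 f1 B δ hf0 hf1 h0 h1 E hE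
  -- the weights
  have hp0 : ∀ (j : Fin m ⊕ Fin m) x, 0 ≤ wt f0 f1 j x := by
    rintro (j | j) x
    · exact sq_nonneg _
    · exact sq_nonneg _
  have hs0 : ∑ x, f0 x ^ 2 = 1 := by
    rw [← hf0]
    unfold ip
    exact Finset.sum_congr rfl fun x _ => sq _
  have hs1 : ∑ x, f1 x ^ 2 = 1 := by
    rw [← hf1]
    unfold ip
    exact Finset.sum_congr rfl fun x _ => sq _
  have hp1 : ∀ (j : Fin m ⊕ Fin m), ∑ x, wt f0 f1 j x = 1 := by
    rintro (j | j)
    · exact hs0
    · exact hs1
  have hcard : ∀ a : Fin b ↪ Fin n, (Finset.univ.map a).card = b := by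
    intro a
    rw [Finset.card_map, Finset.card_univ, Fintype.card_fin]
  have hH : ∀ (j : Fin m ⊕ Fin m) (a : Fin b ↪ Fin n), ∑ x, wt f0 f1 j x * HB B a x ≤ δ := by
    intro j a
    have key : ∀ f : Fn n b, (∀ R : Finset (Fin n), R.card = b → ∀ E : Finset (Fin b ↪ Fin n),
        (∀ x ∈ E, B < (((Finset.univ.map x) ∩ R).card : ℝ)) → ∑ x ∈ E, f x ^ 2 ≤ δ) →
        ∑ x, f x ^ 2 * HB B a x ≤ δ := by
      intro f hf
      have h2 := hf (Finset.univ.map a) (hcard a)
        (Finset.univ.filter fun x => B < (ov a x : ℝ)) (fun x hx => by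
          have h3 := (Finset.mem_filter.1 hx).2
          rw [ov_comm] at h3
          unfold ov at h3
          exact h3)
      refine le_trans (le_of_eq ?_) h2
      rw [Finset.sum_filter]
      refine Finset.sum_congr rfl fun x _ => ?_
      unfold HB
      split_ifs
      · rw [mul_one]
      · rw [mul_zero]
    rcases j with j | j
    · exact key f0 h0
    · exact key f1 h1
  -- δ is nonnegative
  have hδ : 0 ≤ δ := by
    have hne : ∃ x : Fin b ↪ Fin n, f0 x ^ 2 ≠ 0 := by
      by_contra hcon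
      push Not at hcon
      rw [Finset.sum_eq_zero fun x _ => hcon x] at hs0
      exact zero_ne_one hs0
    obtain ⟨x, -⟩ := hne
    have h2 := h0 (Finset.univ.map x) (hcard x) ∅ (fun y hy => absurd hy (Finset.notMem_empty _))
    rwa [Finset.sum_empty] at h2
  -- the sum over a pair of coordinates
  have hpair : ∀ e e' : Fin m ⊕ Fin m, e ≠ e' →
      ∑ ω : Om n b m, FF f0 f1 ω ^ 2 *
        HB B (Sum.elim ω.1 ω.2 e) (Sum.elim ω.1 ω.2 e') ≤ δ := by
    intro e e' hne
    have h2 := two (wt (m := m) f0 f1) hp0 hp1 hne (HB B) δ (hH e')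
    rw [← (Equiv.sumArrowEquivProdArrow (Fin m) (Fin m) (Fin b ↪ Fin n)).symm.sum_comp] at h2
    refine le_trans (le_of_eq ?_) h2
    refine Finset.sum_congr rfl fun ω _ => ?_
    congr 1
    rw [Fintype.prod_sum_type]
    unfold FF
    rw [mul_pow, ← Finset.prod_pow, ← Finset.prod_pow]
    rfl
  -- the union bound
  have hbad : ∀ ω ∈ E, (1 : ℝ) ≤ ∑ e : Fin m × Fin m,
      (HB B (ω.1 e.1) (ω.2 e.2) + (if e.1 = e.2 then 0 else HB B (ω.1 e.1) (ω.1 e.2)) +
        (if e.1 = e.2 then 0 else HB B (ω.2 e.1) (ω.2 e.2))) := by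
    intro ω hω
    have hnn : ∀ x x' : Fin b ↪ Fin n, 0 ≤ HB B x x' := by
      intro x x'
      unfold HB
      split_ifs <;> norm_num
    have hnn' : ∀ e ∈ (Finset.univ : Finset (Fin m × Fin m)),
        0 ≤ HB B (ω.1 e.1) (ω.2 e.2) + (if e.1 = e.2 then 0 else HB B (ω.1 e.1) (ω.1 e.2)) +
        (if e.1 = e.2 then 0 else HB B (ω.2 e.1) (ω.2 e.2)) := by
      intro e _
      have := hnn (ω.1 e.1) (ω.2 e.2)
      have := hnn (ω.1 e.1) (ω.1 e.2)
      have := hnn (ω.2 e.1) (ω.2 e.2)
      split_ifs <;> linarith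
    have hex : ∃ e : Fin m × Fin m, (1 : ℝ) ≤ HB B (ω.1 e.1) (ω.2 e.2) +
        (if e.1 = e.2 then 0 else HB B (ω.1 e.1) (ω.1 e.2)) +
        (if e.1 = e.2 then 0 else HB B (ω.2 e.1) (ω.2 e.2)) := by
      by_contra hcon
      push Not at hcon
      apply hE ω hω
      unfold GG
      refine ⟨fun i i' => ?_, fun i i' hi => ?_, fun i i' hi => ?_⟩
      · by_contra hlt
        have h2 := hcon (i, i')
        have h3 : HB B (ω.1 i) (ω.2 i') = 1 := by
          unfold HB
          rw [if_pos (not_le.1 hlt)]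
        have h4 := hnn (ω.1 i) (ω.1 i')
        have h5 := hnn (ω.2 i) (ω.2 i')
        simp only [h3] at h2
        split_ifs at h2 <;> linarith
      · by_contra hlt
        have h2 := hcon (i, i')
        have h3 : HB B (ω.1 i) (ω.1 i') = 1 := by
          unfold HB
          rw [if_pos (not_le.1 hlt)]
        have h4 := hnn (ω.1 i) (ω.2 i')
        have h5 := hnn (ω.2 i) (ω.2 i')
        simp only [if_neg hi, h3] at h2
        linarith
      · by_contra hlt
        have h2 := hcon (i, i')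
        have h3 : HB B (ω.2 i) (ω.2 i') = 1 := by
          unfold HB
          rw [if_pos (not_le.1 hlt)]
        have h4 := hnn (ω.1 i) (ω.2 i')
        have h5 := hnn (ω.1 i) (ω.1 i')
        simp only [if_neg hi, h3] at h2
        linarith
    obtain ⟨e, he⟩ := hex
    exact he.trans (Finset.single_le_sum hnn' (Finset.mem_univ e))
  calc ∑ ω ∈ E, FF f0 f1 ω ^ 2
      ≤ ∑ ω ∈ E, FF f0 f1 ω ^ 2 * ∑ e : Fin m × Fin m,
        (HB B (ω.1 e.1) (ω.2 e.2) + (if e.1 = e.2 then 0 else HB B (ω.1 e.1) (ω.1 e.2)) +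
          (if e.1 = e.2 then 0 else HB B (ω.2 e.1) (ω.2 e.2))) :=
        Finset.sum_le_sum fun ω hω => le_mul_of_one_le_right (sq_nonneg _) (hbad ω hω)
    _ ≤ ∑ ω : Om n b m, FF f0 f1 ω ^ 2 * ∑ e : Fin m × Fin m,
        (HB B (ω.1 e.1) (ω.2 e.2) + (if e.1 = e.2 then 0 else HB B (ω.1 e.1) (ω.1 e.2)) +
          (if e.1 = e.2 then 0 else HB B (ω.2 e.1) (ω.2 e.2))) := by
        refine Finset.sum_le_univ_sum_of_nonneg fun ω => mul_nonneg (sq_nonneg _)
          (Finset.sum_nonneg fun e _ => ?_)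
        have hnn : ∀ x x' : Fin b ↪ Fin n, 0 ≤ HB B x x' := by
          intro x x'
          unfold HB
          split_ifs <;> norm_num
        have := hnn (ω.1 e.1) (ω.2 e.2)
        have := hnn (ω.1 e.1) (ω.1 e.2)
        have := hnn (ω.2 e.1) (ω.2 e.2)
        split_ifs <;> linarith
    _ = ∑ e : Fin m × Fin m, (∑ ω : Om n b m, FF f0 f1 ω ^ 2 * HB B (ω.1 e.1) (ω.2 e.2) +
        (if e.1 = e.2 then 0 else ∑ ω : Om n b m, FF f0 f1 ω ^ 2 * HB B (ω.1 e.1) (ω.1 e.2)) +
        (if e.1 = e.2 then 0 else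
          ∑ ω : Om n b m, FF f0 f1 ω ^ 2 * HB B (ω.2 e.1) (ω.2 e.2))) := by
        simp only [Finset.mul_sum]
        rw [Finset.sum_comm]
        refine Finset.sum_congr rfl fun e _ => ?_
        by_cases h : e.1 = e.2
        · simp only [if_pos h, add_zero]
        · simp only [if_neg h, mul_add, Finset.sum_add_distrib]
    _ ≤ ∑ _e : Fin m × Fin m, 3 * δ := by
        refine Finset.sum_le_sum fun e _ => ?_
        have h2 := hpair (Sum.inl e.1) (Sum.inr e.2) (by simp)
        simp only [Sum.elim_inl, Sum.elim_inr] at h2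
        by_cases h : e.1 = e.2
        · simp only [if_pos h, add_zero]
          linarith
        · simp only [if_neg h]
          have h3 := hpair (Sum.inl e.1) (Sum.inl e.2) (by simpa using h)
          have h4 := hpair (Sum.inr e.1) (Sum.inr e.2) (by simpa using h)
          simp only [Sum.elim_inl] at h3
          simp only [Sum.elim_inr] at h4
          linarith
    _ = 3 * (m : ℝ) ^ 2 * δ := by
        rw [Finset.sum_const, Finset.card_univ, Fintype.card_prod, Fintype.card_fin, nsmul_eq_mul]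
        push_cast
        ring

end Pool.Agent.Helper77.FS
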